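import Pool.Agent.H.MP_46c8ea_co.Walk

set_option autoImplicit false

namespace Pool.Agent.Results.MP_46c8ea_co.Closed

open Pool.Agent.H.MP_46c8ea_co Filter

theorem result : (∀ m : ℕ, (X (2 * m + 1) 3).Finite) ∧
    (∀ m : ℕ, 2 ≤ m → B 3 (2 * m + 1) = 3 * (m + 2) /
      (4 ^ (m + 5) * m ^ 2 * (m + 1) ^ 3 * (2 * m - 1) * (2 * m + 3) * (2 * m).factorial)) ∧
    (∀ C : ℝ, 0 < C → ∀ᶠ m : ℕ in atTop, |B 3 (2 * m + 1)| < C ^ m / m.factorial) ∧
    ∃ C : ℝ, 0 < C ∧ ∀ m : ℕ, 2 ≤ m → C ^ m / (m.factorial : ℝ) ^ 2 ≤ |B 3 (2 * m + 1)| := by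
  have f : ∀ m : ℕ, ((2 * m).factorial : ℝ) = (2 * m).choose m * (m.factorial : ℝ) ^ 2 := by
    intro m
    have := Nat.choose_mul_factorial_mul_factorial (show m ≤ 2 * m by omega)
    rw [show 2 * m - m = m by omega] at this
    rw [← this]; push_cast; ring
  refine ⟨fun m => (L (m + 5)).finite_toSet.subset (sub m), closed, fun C hC => ?_,
    1 / (16 * 2 ^ 14), by norm_num, fun m hm => ?_⟩
  · have t := (FloorSemiring.tendsto_pow_div_factorial_atTop C⁻¹).eventually_lt_const one_pos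
    filter_upwards [t, eventually_ge_atTop 2] with m h hm
    have h1 : (2 : ℝ) ≤ m := by exact_mod_cast hm
    have p : (0 : ℝ) < m.factorial := by positivity
    have q : (0 : ℝ) < 2 * m - 1 := by linarith
    have c : (1 : ℝ) ≤ (2 * m).choose m := by exact_mod_cast Nat.choose_pos (by omega)
    rw [closed m hm, abs_of_pos (by positivity)]
    refine lt_of_le_of_lt (b := 1 / (m.factorial : ℝ) ^ 2) ?_ ?_
    · rw [f, div_le_div_iff₀ (by positivity) (by positivity), one_mul, ← mul_assoc]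
      refine mul_le_mul_of_nonneg_right ?_ (by positivity)
      calc (3 * (m + 2) : ℝ) ≤ 1 * 1 * 1 * 3 * (2 * m + 3) * 1 := by linarith
        _ ≤ _ := by
          gcongr
          · exact one_le_pow₀ (by norm_num)
          · exact one_le_pow₀ (by linarith)
          · exact one_le_pow₀ (by linarith)
          · linarith
    · rw [div_lt_one p, inv_pow, inv_lt_comm₀ (by positivity) p] at h
      rw [sq, ← div_div, one_div]
      exact div_lt_div_of_pos_right h p
  · have h1 : (2 : ℝ) ≤ m := by exact_mod_cast hm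
    have p : (0 : ℝ) < m.factorial := by positivity
    have q : (0 : ℝ) < 2 * m - 1 := by linarith
    have c : ((2 * m).choose m : ℝ) ≤ 4 ^ m := by
      have := Nat.choose_le_two_pow (2 * m) m
      rw [pow_mul] at this
      exact_mod_cast this
    have c0 : (0 : ℝ) < (2 * m).choose m := by exact_mod_cast Nat.choose_pos (by omega)
    obtain ⟨y, hy⟩ : ∃ y : ℝ, y = 2 ^ m := ⟨_, rfl⟩
    have y1 : (m + 1 : ℝ) ≤ y := by rw [hy]; exact_mod_cast Nat.lt_two_pow_self
    have y2 : (4 : ℝ) ≤ y := by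
      rw [hy]; exact_mod_cast Nat.pow_le_pow_right (show 0 < 2 by omega) hm
    have e1 : (4 : ℝ) ^ m = y ^ 2 := by rw [hy, ← pow_mul, mul_comm, pow_mul]; norm_num
    have e2 : (16 * 2 ^ 14 : ℝ) ^ m = y ^ 18 := by rw [hy, ← pow_mul, mul_comm m, pow_mul]; norm_num
    rw [closed m hm, abs_of_pos (by positivity), f, one_div, inv_pow, e2, ← mul_assoc, ← div_div]
    refine div_le_div_of_nonneg_right ?_ (by positivity)
    rw [le_div_iff₀ (by positivity), inv_mul_le_iff₀ (by positivity), pow_add, e1]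
    rw [e1] at c
    calc _ ≤ y ^ 2 * y ^ 5 * y ^ 2 * y ^ 3 * (y * y) * (y * y) * y ^ 2 := by
          gcongr <;> nlinarith
      _ = y ^ 18 * 1 := by ring
      _ ≤ _ := by gcongr; linarith

end Pool.Agent.Results.MP_46c8ea_co.Closed
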